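import Mathlib

/-!
# Path-independent stabilizability does not give a uniform exponential rate

Two `5 × 10` matrices and two `10 × 5` matrices for which the products are path-independent
stabilizable, while no choice of the sequence `B` gives a uniform exponential rate.

The control word is a word in two letters `g`, `κ`. A state is a vector `(x, a, k, a', k')`. The letter
`g` acts by `(x, 2a, 2(k + a), a', k' - a')`; the letter `κ` halves `x`, adds `a' + k'` to it, puts the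
result into the slot `x` or into the slot `a` (the adversary chooses), and moves `(a, k)` to `(a', k')`.
Thus a unit vector in the slot `a` at the beginning of a block `g^L` followed by a block `g^L'` is
returned multiplied by `2^L (L - L' + 1)`; it is killed exactly when `L' = L + 1`.
-/

set_option autoImplicit false

open Filter Topology
open scoped Matrix.Norms.Elementwise

namespace Pool.Agent.Results.MP_3f52e1_an.NoUniformRate

/-- The products `P_n = A_n B_n ⋯ A_1 B_1`, the sequences being indexed from `0`: `prods A B n` is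
`A (n-1) * B (n-1) * ⋯ * A 0 * B 0`. -/
def prods {N M : ℕ} (A : ℕ → Matrix (Fin N) (Fin M) ℝ) (B : ℕ → Matrix (Fin M) (Fin N) ℝ) :
    ℕ → Matrix (Fin N) (Fin N) ℝ
  | 0 => 1
  | n + 1 => A n * B n * prods A B n

/-- One sequence `B` in `ℬ` makes the products tend to zero for every sequence `A` in `𝒜`. -/
def PathIndependentStabilizable {N M : ℕ} (𝒜 : Finset (Matrix (Fin N) (Fin M) ℝ))
    (ℬ : Finset (Matrix (Fin M) (Fin N) ℝ)) : Prop :=
  ∃ B : ℕ → Matrix (Fin M) (Fin N) ℝ, (∀ n, B n ∈ ℬ) ∧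
    ∀ A : ℕ → Matrix (Fin N) (Fin M) ℝ, (∀ n, A n ∈ 𝒜) →
      Tendsto (fun n => ‖prods A B n‖) atTop (𝓝 0)

/-- Some sequence `B` in `ℬ` gives `‖P_n‖ ≤ C r ^ n` for all `n ≥ 1` and all sequences `A` in `𝒜`. -/
def UniformExponentialRate {N M : ℕ} (𝒜 : Finset (Matrix (Fin N) (Fin M) ℝ))
    (ℬ : Finset (Matrix (Fin M) (Fin N) ℝ)) : Prop :=
  ∃ B : ℕ → Matrix (Fin M) (Fin N) ℝ, (∀ n, B n ∈ ℬ) ∧
    ∃ C r : ℝ, 0 < C ∧ 0 < r ∧ r < 1 ∧
      ∀ A : ℕ → Matrix (Fin N) (Fin M) ℝ, (∀ n, A n ∈ 𝒜) →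
        ∀ n, 1 ≤ n → ‖prods A B n‖ ≤ C * r ^ n

/-! ### The matrices -/

/-- the letter `g` -/
def G : Matrix (Fin 5) (Fin 5) ℝ :=
  !![1,0,0,0,0; 0,2,0,0,0; 0,2,2,0,0; 0,0,0,1,0; 0,0,0,-1,1]

/-- the letter `κ`, result into the slot `x` -/
noncomputable def K1 : Matrix (Fin 5) (Fin 5) ℝ :=
  !![1/2,0,0,1,1; 0,0,0,0,0; 0,0,0,0,0; 0,1,0,0,0; 0,0,1,0,0]

/-- the letter `κ`, result into the slot `a` -/
noncomputable def K2 : Matrix (Fin 5) (Fin 5) ℝ :=
  !![0,0,0,0,0; 1/2,0,0,1,1; 0,0,0,0,0; 0,1,0,0,0; 0,0,1,0,0]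

/-- `(G | K)` -/
def Am (K : Matrix (Fin 5) (Fin 5) ℝ) : Matrix (Fin 5) (Fin 10) ℝ :=
  fun i j => if h : j.val < 5 then G i ⟨j.val, h⟩ else K i ⟨j.val - 5, by omega⟩

/-- `v ↦ (v, 0)` -/
def Bg : Matrix (Fin 10) (Fin 5) ℝ := fun i j => if i.val = j.val then 1 else 0

/-- `v ↦ (0, v)` -/
def Bk : Matrix (Fin 10) (Fin 5) ℝ := fun i j => if i.val = j.val + 5 then 1 else 0

theorem Am_Bg (K : Matrix (Fin 5) (Fin 5) ℝ) : Am K * Bg = G := by
  ext i j
  rw [Matrix.mul_apply, Finset.sum_eq_single (⟨j.val, by omega⟩ : Fin 10)]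
  · have h : (j.val : ℕ) < 5 := j.2
    simp [Am, Bg, h]
  · intro b _ hb
    have : b.val ≠ j.val := fun h => hb (Fin.ext h)
    simp [Bg, this]
  · simp

theorem Am_Bk (K : Matrix (Fin 5) (Fin 5) ℝ) : Am K * Bk = K := by
  ext i j
  rw [Matrix.mul_apply, Finset.sum_eq_single (⟨j.val + 5, by omega⟩ : Fin 10)]
  · simp [Am, Bk]
  · intro b _ hb
    have : b.val ≠ j.val + 5 := fun h => hb (Fin.ext h)
    simp [Bk, this]
  · simp

theorem G_mul (x a k a' k' : ℝ) :
    G.mulVec ![x, a, k, a', k'] = ![x, 2 * a, 2 * (k + a), a', k' - a'] := by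
  ext i
  fin_cases i <;> simp [G, Matrix.mulVec, dotProduct, Fin.sum_univ_succ] <;> ring

theorem K1_mul (x a k a' k' : ℝ) :
    K1.mulVec ![x, a, k, a', k'] = ![x / 2 + (a' + k'), 0, 0, a, k] := by
  ext i
  fin_cases i <;> simp [K1, Matrix.mulVec, dotProduct, Fin.sum_univ_succ] <;> ring

theorem K2_mul (x a k a' k' : ℝ) :
    K2.mulVec ![x, a, k, a', k'] = ![0, x / 2 + (a' + k'), 0, a, k] := by
  ext i
  fin_cases i <;> simp [K2, Matrix.mulVec, dotProduct, Fin.sum_univ_succ] <;> ring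

/-- the two matrices of the adversary -/
noncomputable def AA : Finset (Matrix (Fin 5) (Fin 10) ℝ) := {Am K1, Am K2}

/-- the two control matrices -/
noncomputable def BB : Finset (Matrix (Fin 10) (Fin 5) ℝ) := {Bg, Bk}

theorem mem_AA {X : Matrix (Fin 5) (Fin 10) ℝ} : X ∈ AA ↔ X = Am K1 ∨ X = Am K2 := by
  simp [AA]

theorem mem_BB {X : Matrix (Fin 10) (Fin 5) ℝ} : X ∈ BB ↔ X = Bg ∨ X = Bk := by
  simp [BB]


/-! ### Part 1: the perfect word `κ κ g κ g g κ g g g κ ⋯` -/

/-- the positions of `κ` -/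
def t : ℕ → ℕ
  | 0 => 0
  | i + 1 => t i + i + 1

theorem t_strictMono : StrictMono t := strictMono_nat_of_lt_succ fun i => by simp only [t]; omega

open Classical in
/-- the stabilizing sequence -/
noncomputable def Bbar (n : ℕ) : Matrix (Fin 10) (Fin 5) ℝ := if ∃ i, t i = n then Bk else Bg

theorem Bbar_t (i : ℕ) : Bbar (t i) = Bk := by simp [Bbar]

theorem Bbar_g (i l : ℕ) (hl : l < i) : Bbar (t i + 1 + l) = Bg := by
  have : ¬ ∃ j, t j = t i + 1 + l := by
    rintro ⟨j, hj⟩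
    have h1 : i < j := t_strictMono.lt_iff_lt.1 (by omega)
    have h2 : j < i + 1 := t_strictMono.lt_iff_lt.1 (by simp only [t]; omega)
    omega
  simp [Bbar, this]

theorem Bbar_mem (n : ℕ) : Bbar n ∈ BB := by
  rw [mem_BB]
  unfold Bbar
  split_ifs
  · exact Or.inr rfl
  · exact Or.inl rfl

theorem exists_block (I n : ℕ) (hn : t I + 1 ≤ n) : ∃ i, I ≤ i ∧ ∃ l, l ≤ i ∧ n = t i + 1 + l := by
  induction n, hn using Nat.le_induction with
  | base => exact ⟨I, le_rfl, 0, Nat.zero_le _, rfl⟩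
  | succ n hn ih =>
    obtain ⟨i, hi, l, hl, rfl⟩ := ih
    rcases Nat.lt_or_ge l i with h | h
    · exact ⟨i, hi, l + 1, h, by omega⟩
    · exact ⟨i + 1, by omega, 0, Nat.zero_le _, by simp only [t]; omega⟩

section
variable {A : ℕ → Matrix (Fin 5) (Fin 10) ℝ} (hA : ∀ n, A n ∈ AA) (v : Fin 5 → ℝ)

/-- the trajectory of `v` -/
noncomputable def V (A : ℕ → Matrix (Fin 5) (Fin 10) ℝ) (v : Fin 5 → ℝ) (n : ℕ) : Fin 5 → ℝ :=
  (prods A Bbar n).mulVec v

theorem V_succ (n : ℕ) : V A v (n + 1) = (A n * Bbar n).mulVec (V A v n) := by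
  unfold V
  rw [Matrix.mulVec_mulVec]
  rfl

include hA in
theorem V_g (i l : ℕ) (hl : l < i) : V A v (t i + 1 + (l + 1)) = G.mulVec (V A v (t i + 1 + l)) := by
  rw [← add_assoc, V_succ, Bbar_g i l hl]
  rcases mem_AA.1 (hA (t i + 1 + l)) with h | h <;> rw [h, Am_Bg]

include hA in
theorem V_k (i : ℕ) : V A v (t i + 1) = K1.mulVec (V A v (t i)) ∨
    V A v (t i + 1) = K2.mulVec (V A v (t i)) := by
  rw [V_succ, Bbar_t]
  rcases mem_AA.1 (hA (t i)) with h | h <;> rw [h, Am_Bk]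
  · exact Or.inl rfl
  · exact Or.inr rfl

include hA in
theorem V_block (i : ℕ) (x a a' k' : ℝ) (h : V A v (t i + 1) = ![x, a, 0, a', k']) (l : ℕ) (hl : l ≤ i) :
    V A v (t i + 1 + l) = ![x, 2 ^ l * a, 2 ^ l * (l * a), a', k' - l * a'] := by
  induction l with
  | zero => simpa using h
  | succ l ih =>
    rw [V_g hA v i l hl, ih (by omega), G_mul]
    congr 1
    have e1 : (2 : ℝ) * (2 ^ l * a) = 2 ^ (l + 1) * a := by ring
    have e2 : (2 : ℝ) * (2 ^ l * (l * a) + 2 ^ l * a) = 2 ^ (l + 1) * (((l + 1 : ℕ) : ℝ) * a) := by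
      push_cast; ring
    have e3 : k' - l * a' - a' = k' - ((l + 1 : ℕ) : ℝ) * a' := by push_cast; ring
    rw [e1, e2, e3]

/-- the state after the `i`-th `κ` -/
def St (A : ℕ → Matrix (Fin 5) (Fin 10) ℝ) (v : Fin 5 → ℝ) (i : ℕ) (x a a' : ℝ) : Prop :=
  V A v (t i + 1) = ![x, a, 0, a', ((i : ℝ) - 1) * a']

include hA in
theorem St_step (i : ℕ) (x a a' : ℝ) (h : St A v i x a a') :
    St A v (i + 1) (x / 2) 0 (2 ^ i * a) ∨ St A v (i + 1) 0 (x / 2) (2 ^ i * a) := by
  have h1 := V_block hA v i x a a' _ h i le_rfl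
  have h2 : t (i + 1) = t i + 1 + i := by simp only [t]; omega
  rw [← h2] at h1
  have e : ((i : ℝ) - 1) * a' - i * a' = - a' := by ring
  rw [e] at h1
  rcases V_k hA v (i + 1) with h3 | h3
  · left
    unfold St
    rw [h3, h1, K1_mul]
    have e1 : x / 2 + (a' + -a') = x / 2 := by ring
    have e2 : (2 : ℝ) ^ i * (i * a) = (((i + 1 : ℕ) : ℝ) - 1) * (2 ^ i * a) := by push_cast; ring
    rw [e1, e2]
  · right
    unfold St
    rw [h3, h1, K2_mul]
    have e1 : x / 2 + (a' + -a') = x / 2 := by ring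
    have e2 : (2 : ℝ) ^ i * (i * a) = (((i + 1 : ℕ) : ℝ) - 1) * (2 ^ i * a) := by push_cast; ring
    rw [e1, e2]

theorem vec5 (u : Fin 5 → ℝ) : u = ![u 0, u 1, u 2, u 3, u 4] := by
  ext i
  fin_cases i <;> rfl

include hA in
theorem St_one : ∃ x a a', St A v 1 x a a' ∧ (x = 0 ∨ a = 0) := by
  have h0 : ∃ x a a' k', V A v (t 0 + 1) = ![x, a, 0, a', k'] := by
    rcases V_k hA v 0 with h | h
    · rw [vec5 (V A v (t 0)), K1_mul] at h
      exact ⟨_, _, _, _, h⟩
    · rw [vec5 (V A v (t 0)), K2_mul] at h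
      exact ⟨_, _, _, _, h⟩
  obtain ⟨x, a, a', k', h0⟩ := h0
  have h0' : V A v (t 1) = ![x, a, 0, a', k'] := h0
  rcases V_k hA v 1 with h | h
  · rw [h0', K1_mul] at h
    refine ⟨x / 2 + (a' + k'), 0, a, ?_, Or.inr rfl⟩
    unfold St
    rw [h]
    simp
  · rw [h0', K2_mul] at h
    refine ⟨0, x / 2 + (a' + k'), a, ?_, Or.inl rfl⟩
    unfold St
    rw [h]
    simp

theorem V_zero_of (n : ℕ) (h : V A v n = 0) (m : ℕ) (hm : n ≤ m) : V A v m = 0 := by
  induction m, hm using Nat.le_induction with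
  | base => exact h
  | succ m hm ih => rw [V_succ, ih, Matrix.mulVec_zero]

include hA in
theorem V_tendsto : Tendsto (V A v) atTop (𝓝 0) := by
  obtain ⟨x1, a1, a1', h1, h1'⟩ := St_one hA v
  by_cases hz : ∃ i, 1 ≤ i ∧ ∃ a a', St A v i 0 a a'
  · obtain ⟨i, hi, a, a', h⟩ := hz
    have h2 : St A v (i + 1) 0 0 (2 ^ i * a) := by
      rcases St_step hA v i 0 a a' h with h2 | h2 <;> simpa using h2
    have h3 : St A v (i + 2) 0 0 0 := by
      rcases St_step hA v (i + 1) 0 0 _ h2 with h3 | h3 <;> simpa using h3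
    have h4 : V A v (t (i + 2) + 1) = 0 := by
      unfold St at h3
      rw [h3]
      ext j
      fin_cases j <;> simp
    apply tendsto_const_nhds.congr'
    filter_upwards [eventually_ge_atTop (t (i + 2) + 1)] with n hn
    exact (V_zero_of v _ h4 n hn).symm
  · -- the path stays in the slot `x`
    push Not at hz
    have key : ∀ m : ℕ, ∃ a', St A v (m + 1) (x1 / 2 ^ m) 0 a' ∧ (1 ≤ m → a' = 0) := by
      intro m
      induction m with
      | zero =>
        rcases h1' with h | h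
        · rw [h] at h1
          exact absurd h1 (hz 1 le_rfl _ _)
        · rw [h] at h1
          exact ⟨a1', by simpa using h1, by simp⟩
      | succ m ih =>
        obtain ⟨a', h, -⟩ := ih
        rcases St_step hA v (m + 1) _ _ _ h with h2 | h2
        · refine ⟨0, ?_, fun _ => rfl⟩
          have e : x1 / 2 ^ m / 2 = x1 / 2 ^ (m + 1) := by rw [pow_succ]; field_simp
          rw [e, mul_zero] at h2
          exact h2
        · exact absurd h2 (hz _ (by omega) _ _)
    rw [tendsto_pi_nhds]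
    intro j
    rw [Metric.tendsto_atTop]
    intro ε hε
    have hlim : Tendsto (fun m : ℕ => |x1| / 2 ^ m) atTop (𝓝 0) := by
      have := (tendsto_pow_atTop_nhds_zero_of_lt_one (r := (1 / 2 : ℝ)) (by norm_num) (by norm_num)).const_mul |x1|
      simp only [mul_zero] at this
      refine this.congr fun m => ?_
      rw [one_div, inv_pow]; rfl
    obtain ⟨m0, hm0⟩ := (Metric.tendsto_atTop.1 hlim ε hε)
    refine ⟨t (m0 + 2) + 1, fun n hn => ?_⟩
    obtain ⟨i, hi, l, hl, rfl⟩ := exists_block (m0 + 2) n hn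
    obtain ⟨m, rfl⟩ : ∃ m, i = m + 1 := ⟨i - 1, by omega⟩
    obtain ⟨a', h, ha'⟩ := key m
    rw [ha' (by omega)] at h
    have h2 := V_block hA v (m + 1) _ _ _ _ h l hl
    rw [h2]
    have h3 := hm0 m (by omega)
    rw [Real.dist_eq, sub_zero, abs_div, abs_abs, abs_of_pos (by positivity : (0 : ℝ) < 2 ^ m)] at h3
    have h4 : |x1 / 2 ^ m| < ε := by
      rw [abs_div, abs_of_pos (by positivity : (0 : ℝ) < 2 ^ m)]
      exact h3
    rw [Real.dist_eq]
    fin_cases j
    · simpa using h4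
    all_goals simpa using hε

end

theorem pathIndep : PathIndependentStabilizable AA BB := by
  refine ⟨Bbar, Bbar_mem, fun A hA => ?_⟩
  have h1 : ∀ i j, Tendsto (fun n => prods A Bbar n i j) atTop (𝓝 0) := by
    intro i j
    have h := (tendsto_pi_nhds.1 (V_tendsto hA (Pi.single j 1))) i
    refine h.congr fun n => ?_
    simp [V]
  rw [Metric.tendsto_atTop]
  intro ε hε
  have h2 : ∀ᶠ n in atTop, ∀ i j, ‖prods A Bbar n i j‖ < ε := by
    rw [eventually_all]
    intro i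
    rw [eventually_all]
    intro j
    have := (Metric.tendsto_nhds.1 (h1 i j)) ε hε
    simpa using this
  obtain ⟨N, hN⟩ := eventually_atTop.1 h2
  refine ⟨N, fun n hn => ?_⟩
  rw [dist_zero_right, norm_norm]
  exact (Matrix.norm_lt_iff hε).2 (hN n hn)

/-! ### Part 2: no sequence gives a uniform rate -/

theorem prods_congr {N M : ℕ} {A A' : ℕ → Matrix (Fin N) (Fin M) ℝ} (B : ℕ → Matrix (Fin M) (Fin N) ℝ)
    (n : ℕ) (h : ∀ m < n, A m = A' m) : prods A B n = prods A' B n := by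
  induction n with
  | zero => rfl
  | succ n ih =>
    simp only [prods]
    rw [ih fun m hm => h m (by omega), h n (by omega)]

/-- `u` is the image of the first basis vector under some product of length `n` -/
def Reach (B : ℕ → Matrix (Fin 10) (Fin 5) ℝ) (n : ℕ) (u : Fin 5 → ℝ) : Prop :=
  ∃ A : ℕ → Matrix (Fin 5) (Fin 10) ℝ, (∀ m, A m ∈ AA) ∧ (prods A B n).mulVec ![1, 0, 0, 0, 0] = u

theorem reach_zero (B : ℕ → Matrix (Fin 10) (Fin 5) ℝ) : Reach B 0 ![1, 0, 0, 0, 0] :=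
  ⟨fun _ => Am K1, fun _ => mem_AA.2 (Or.inl rfl), by simp [prods]⟩

theorem reach_step {B : ℕ → Matrix (Fin 10) (Fin 5) ℝ} {n : ℕ} {u : Fin 5 → ℝ} (h : Reach B n u)
    {X : Matrix (Fin 5) (Fin 10) ℝ} (hX : X ∈ AA) : Reach B (n + 1) ((X * B n).mulVec u) := by
  obtain ⟨A, hA, hu⟩ := h
  refine ⟨Function.update A n X, fun m => ?_, ?_⟩
  · rcases eq_or_ne m n with rfl | hm
    · simpa using hX
    · simpa [Function.update_of_ne hm] using hA m
  · simp only [prods, Function.update_self]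
    rw [← Matrix.mulVec_mulVec, prods_congr (A' := A) B n, hu]
    intro m hm
    exact Function.update_of_ne (by omega) _ _

theorem reach_g {B : ℕ → Matrix (Fin 10) (Fin 5) ℝ} {n : ℕ} {u : Fin 5 → ℝ} (h : Reach B n u)
    (hB : B n = Bg) : Reach B (n + 1) (G.mulVec u) := by
  have := reach_step h (mem_AA.2 (Or.inl rfl) : Am K1 ∈ AA)
  rwa [hB, Am_Bg] at this

theorem reach_k1 {B : ℕ → Matrix (Fin 10) (Fin 5) ℝ} {n : ℕ} {u : Fin 5 → ℝ} (h : Reach B n u)
    (hB : B n = Bk) : Reach B (n + 1) (K1.mulVec u) := by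
  have := reach_step h (mem_AA.2 (Or.inl rfl) : Am K1 ∈ AA)
  rwa [hB, Am_Bk] at this

theorem reach_k2 {B : ℕ → Matrix (Fin 10) (Fin 5) ℝ} {n : ℕ} {u : Fin 5 → ℝ} (h : Reach B n u)
    (hB : B n = Bk) : Reach B (n + 1) (K2.mulVec u) := by
  have := reach_step h (mem_AA.2 (Or.inr rfl) : Am K2 ∈ AA)
  rwa [hB, Am_Bk] at this

theorem Bg_ne_Bk : Bg ≠ Bk := by
  intro h
  have := congrFun (congrFun h 0) 0
  simp [Bg, Bk] at this

section
variable {B : ℕ → Matrix (Fin 10) (Fin 5) ℝ} (hB : ∀ n, B n ∈ BB)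

open Classical in
/-- the position of the `j`-th `κ` -/
noncomputable def pos (B : ℕ → Matrix (Fin 10) (Fin 5) ℝ) (j : ℕ) : ℕ := Nat.nth (fun n => B n = Bk) j

open Classical in
include hB in
theorem reach_count (n : ℕ) : Reach B n ![(1 / 2) ^ (Nat.count (fun n => B n = Bk) n), 0, 0, 0, 0] := by
  induction n with
  | zero => simpa using reach_zero B
  | succ n ih =>
    rcases mem_BB.1 (hB n) with h | h
    · have h2 : ¬ B n = Bk := by rw [h]; exact Bg_ne_Bk
      have h3 := reach_g ih h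
      rw [G_mul] at h3
      rw [Nat.count_succ, if_neg h2]
      simpa using h3
    · have h3 := reach_k1 ih h
      rw [K1_mul] at h3
      rw [Nat.count_succ, if_pos h, pow_succ]
      have e : ((1 : ℝ) / 2) ^ Nat.count (fun n => B n = Bk) n / 2 + (0 + 0)
          = (1 / 2) ^ Nat.count (fun n => B n = Bk) n * (1 / 2) := by ring
      rw [e] at h3
      exact h3

variable (hinf : (Set.ofPred fun n => B n = Bk).Infinite)

include hinf in
theorem pos_strictMono : StrictMono (pos B) := Nat.nth_strictMono hinf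

include hinf in
theorem pos_mem (j : ℕ) : B (pos B j) = Bk := Nat.nth_mem_of_infinite hinf j

include hB hinf in
theorem pos_between (j m : ℕ) (h1 : pos B j < m) (h2 : m < pos B (j + 1)) : B m = Bg := by
  classical
  rcases mem_BB.1 (hB m) with h | h
  · exact h
  · exfalso
    have h3 : Nat.nth (fun n => B n = Bk) (Nat.count (fun n => B n = Bk) m) = m := Nat.nth_count h
    have h4 : j < Nat.count (fun n => B n = Bk) m := by
      rw [← (Nat.nth_strictMono hinf).lt_iff_lt, h3]; exact h1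
    have h5 : Nat.count (fun n => B n = Bk) m < j + 1 := by
      rw [← (Nat.nth_strictMono hinf).lt_iff_lt, h3]; exact h2
    omega

/-- length of the block after the `j`-th `κ` -/
noncomputable def len (B : ℕ → Matrix (Fin 10) (Fin 5) ℝ) (j : ℕ) : ℕ := pos B (j + 1) - pos B j - 1

include hinf in
theorem pos_succ (j : ℕ) : pos B (j + 1) = pos B j + 1 + len B j := by
  have : pos B j < pos B (j + 1) := pos_strictMono hinf (Nat.lt_succ_self j)
  unfold len
  omega

include hB hinf in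
theorem reach_run (j : ℕ) (x a k a' k' : ℝ) (h : Reach B (pos B j + 1) ![x, a, k, a', k']) (l : ℕ)
    (hl : l ≤ len B j) :
    Reach B (pos B j + 1 + l) ![x, 2 ^ l * a, 2 ^ l * (k + l * a), a', k' - l * a'] := by
  induction l with
  | zero => simpa using h
  | succ l ih =>
    have h1 := reach_g (ih (by omega)) (pos_between hB hinf j _ (by omega)
      (by rw [pos_succ hinf]; omega))
    rw [G_mul] at h1
    have e1 : (2 : ℝ) * (2 ^ l * a) = 2 ^ (l + 1) * a := by ring
    have e2 : (2 : ℝ) * (2 ^ l * (k + l * a) + 2 ^ l * a) = 2 ^ (l + 1) * (k + ((l + 1 : ℕ) : ℝ) * a) := by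
      push_cast; ring
    have e3 : k' - l * a' - a' = k' - ((l + 1 : ℕ) : ℝ) * a' := by push_cast; ring
    rw [e1, e2, e3] at h1
    exact h1

include hB hinf in
theorem reach_block (j : ℕ) (x a k a' k' : ℝ) (h : Reach B (pos B j + 1) ![x, a, k, a', k']) :
    Reach B (pos B (j + 1)) ![x, 2 ^ (len B j) * a, 2 ^ (len B j) * (k + (len B j) * a), a',
      k' - (len B j) * a'] := by
  rw [pos_succ hinf]
  exact reach_run hB hinf j x a k a' k' h _ le_rfl

/-- weight `w` can be put into any of the two slots at the `j`-th `κ` -/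
def Hub (B : ℕ → Matrix (Fin 10) (Fin 5) ℝ) (j : ℕ) (w : ℝ) : Prop :=
  ∃ x a' k' : ℝ, Reach B (pos B j) ![x, 0, 0, a', k'] ∧ x / 2 + (a' + k') = w

include hinf in
theorem hub_x {j : ℕ} {w : ℝ} (h : Hub B j w) : Reach B (pos B j + 1) ![w, 0, 0, 0, 0] := by
  obtain ⟨x, a', k', h1, h2⟩ := h
  have := reach_k1 h1 (pos_mem hinf j)
  rwa [K1_mul, h2] at this

include hinf in
theorem hub_a {j : ℕ} {w : ℝ} (h : Hub B j w) : Reach B (pos B j + 1) ![0, w, 0, 0, 0] := by
  obtain ⟨x, a', k', h1, h2⟩ := h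
  have := reach_k2 h1 (pos_mem hinf j)
  rwa [K2_mul, h2] at this

include hB hinf in
theorem hub_wait {j : ℕ} {w : ℝ} (h : Hub B j w) : Hub B (j + 1) (w / 2) := by
  have h1 := reach_block hB hinf j _ _ _ _ _ (hub_x hinf h)
  refine ⟨w, 0, 0, ?_, by ring⟩
  simpa using h1

include hB hinf in
theorem hub_gain {j : ℕ} {w : ℝ} (h : Hub B j w) :
    Hub B (j + 2) (w * 2 ^ (len B j) * ((len B j : ℝ) - len B (j + 1) + 1)) := by
  have h1 := reach_block hB hinf j _ _ _ _ _ (hub_a hinf h)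
  have h2 := reach_k1 h1 (pos_mem hinf (j + 1))
  rw [K1_mul] at h2
  have h3 := reach_block hB hinf (j + 1) _ _ _ _ _ h2
  have e : (2 : ℝ) ^ len B (j + 1) * 0 = 0 := mul_zero _
  have e' : (2 : ℝ) ^ len B (j + 1) * (0 + (len B (j + 1) : ℝ) * 0) = 0 := by ring
  rw [e, e'] at h3
  exact ⟨_, _, _, h3, by ring⟩

include hB hinf in
theorem hub_waits {j : ℕ} {w : ℝ} (h : Hub B j w) (m : ℕ) : Hub B (j + m) (w / 2 ^ m) := by
  induction m with
  | zero => simpa using h
  | succ m ih =>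
    have := hub_wait hB hinf ih
    have e : w / 2 ^ m / 2 = w / 2 ^ (m + 1) := by rw [pow_succ]; field_simp
    rwa [e] at this

include hB hinf in
theorem hub_next (hviol : ∀ j0, ∃ j, j0 ≤ j ∧ len B (j + 1) ≠ len B j + 1) {j : ℕ} {w : ℝ}
    (h : Hub B j w) (hw : 1 / 2 ≤ |w|) : ∃ j', j < j' ∧ ∃ w', Hub B j' w' ∧ 1 / 2 ≤ |w'| := by
  classical
  have hex : ∃ m, len B (j + m + 1) ≠ len B (j + m) + 1 := by
    obtain ⟨j', h1, h2⟩ := hviol j
    obtain ⟨m, rfl⟩ := Nat.exists_eq_add_of_le h1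
    exact ⟨m, h2⟩
  obtain ⟨m, hm, hmin⟩ : ∃ m, len B (j + m + 1) ≠ len B (j + m) + 1 ∧
      ∀ m' < m, len B (j + m' + 1) = len B (j + m') + 1 :=
    ⟨Nat.find hex, Nat.find_spec hex, fun m' hm' => by simpa using Nat.find_min hex hm'⟩
  have hlen : ∀ m' ≤ m, m' ≤ len B (j + m') := by
    intro m'
    induction m' with
    | zero => intro _; omega
    | succ m' ih =>
      intro hm'
      have h1 := hmin m' (by omega)
      have h2 := ih (by omega)
      rw [show j + (m' + 1) = j + m' + 1 by omega, h1]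
      omega
  have h1 := hub_gain hB hinf (hub_waits hB hinf h m)
  refine ⟨j + m + 2, by omega, _, h1, ?_⟩
  rw [abs_mul, abs_mul, abs_div]
  have h2 : (1 : ℝ) ≤ |(len B (j + m) : ℝ) - len B (j + m + 1) + 1| := by
    have h3 : ((len B (j + m) : ℤ) - len B (j + m + 1) + 1) ≠ 0 := by omega
    have h4 := Int.one_le_abs h3
    have h5 : ((1 : ℤ) : ℝ) ≤ ((|(len B (j + m) : ℤ) - len B (j + m + 1) + 1| : ℤ) : ℝ) := by
      exact_mod_cast h4
    push_cast at h5
    exact h5
  have h3 : (2 : ℝ) ^ m ≤ 2 ^ len B (j + m) := pow_le_pow_right₀ (by norm_num) (hlen m le_rfl)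
  have h4 : |(2 : ℝ) ^ m| = 2 ^ m := abs_of_pos (by positivity)
  have h5 : |(2 : ℝ) ^ len B (j + m)| = 2 ^ len B (j + m) := abs_of_pos (by positivity)
  rw [h4, h5]
  have h6 : |w| ≤ |w| / 2 ^ m * 2 ^ len B (j + m) := by
    rw [div_mul_eq_mul_div, le_div_iff₀ (by positivity)]
    exact mul_le_mul_of_nonneg_left h3 (abs_nonneg _)
  calc 1 / 2 ≤ |w| := hw
    _ ≤ |w| / 2 ^ m * 2 ^ len B (j + m) := h6
    _ = |w| / 2 ^ m * 2 ^ len B (j + m) * 1 := (mul_one _).symm
    _ ≤ _ := mul_le_mul_of_nonneg_left h2 (by positivity)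

end

theorem not_uniform : ¬ UniformExponentialRate AA BB := by
  classical
  rintro ⟨B, hB, C, r, hC, hr, hr1, hbd⟩
  have bound : ∀ n, 1 ≤ n → ∀ u, Reach B n u → |u 0| ≤ C * r ^ n := by
    rintro n hn u ⟨A, hA, rfl⟩
    refine le_trans ?_ (hbd A hA n hn)
    have h1 : (prods A B n).mulVec ![1, 0, 0, 0, 0] 0 = prods A B n 0 0 := by
      simp [Matrix.mulVec, dotProduct, Fin.sum_univ_succ]
    rw [h1, ← Real.norm_eq_abs]
    exact Matrix.norm_entry_le_entrywise_sup_norm _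
  have hcount : ∀ n, 1 ≤ n → (1 / 2 : ℝ) ^ (Nat.count (fun n => B n = Bk) n) ≤ C * r ^ n := by
    intro n hn
    have := bound n hn _ (reach_count hB n)
    refine le_trans (le_abs_self _) ?_
    simpa using this
  have hlim : Tendsto (fun n : ℕ => C * r ^ n) atTop (𝓝 0) := by
    simpa using (tendsto_pow_atTop_nhds_zero_of_lt_one hr.le hr1).const_mul C
  -- infinitely many `κ`
  have hinf : (Set.ofPred fun n => B n = Bk).Infinite := by
    intro hfin
    obtain ⟨N, hN⟩ := hfin.bddAbove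
    have h1 : ∀ m, Nat.count (fun n => B n = Bk) (N + 1 + m) = Nat.count (fun n => B n = Bk) (N + 1) := by
      intro m
      induction m with
      | zero => rfl
      | succ m ih =>
        rw [← add_assoc, Nat.count_succ, ih, if_neg, add_zero]
        intro h
        have := hN h
        omega
    have h2 : ∀ᶠ n in atTop, C * r ^ n < (1 / 2 : ℝ) ^ (Nat.count (fun n => B n = Bk) (N + 1)) :=
      hlim.eventually (gt_mem_nhds (by positivity))
    obtain ⟨n, h3, h4⟩ := (h2.and (eventually_ge_atTop (N + 1))).exists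
    obtain ⟨m, rfl⟩ := Nat.exists_eq_add_of_le h4
    have h5 := hcount (N + 1 + m) (by omega)
    rw [h1] at h5
    exact absurd h5 (not_le.2 h3)
  have hpos : ∀ j, 1 ≤ j → (1 / 2 : ℝ) ^ j ≤ C * r ^ (pos B j) := by
    intro j hj
    have h1 : j ≤ pos B j := (pos_strictMono hinf).id_le j
    have h2 := hcount (pos B j) (by omega)
    have h3 : Nat.count (fun n => B n = Bk) (pos B j) = j := Nat.count_nth_of_infinite hinf j
    rwa [h3] at h2
  -- infinitely many violations
  have hviol : ∀ j0, ∃ j, j0 ≤ j ∧ len B (j + 1) ≠ len B j + 1 := by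
    by_contra hcon
    push Not at hcon
    obtain ⟨j0, hj0⟩ := hcon
    have h1 : ∀ m, m ≤ len B (j0 + m) := by
      intro m
      induction m with
      | zero => omega
      | succ m ih =>
        rw [← add_assoc, hj0 (j0 + m) (by omega)]
        omega
    obtain ⟨K, hK⟩ := exists_pow_lt_of_lt_one (show (0 : ℝ) < 1 / 4 by norm_num) hr1
    have h2 : ∀ m, K * m ≤ pos B (j0 + K + m) := by
      intro m
      induction m with
      | zero => omega
      | succ m ih =>
        have h3 := pos_succ hinf (j0 + K + m)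
        have h4 := h1 (K + m)
        rw [show j0 + K + (m + 1) = j0 + K + m + 1 by omega, h3]
        rw [show j0 + (K + m) = j0 + K + m by omega] at h4
        have : K * (m + 1) = K * m + K := by ring
        omega
    have h3 : ∀ m : ℕ, 1 ≤ m → (2 : ℝ) ^ m ≤ C * 2 ^ (j0 + K) := by
      intro m hm
      have h4 := hpos (j0 + K + m) (by omega)
      have h5 : r ^ (pos B (j0 + K + m)) ≤ r ^ (K * m) := pow_le_pow_of_le_one hr.le hr1.le (h2 m)
      have h6 : r ^ (K * m) ≤ (1 / 4) ^ m := by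
        rw [pow_mul]
        exact pow_le_pow_left₀ (by positivity) hK.le m
      have h7 : (1 / 2 : ℝ) ^ (j0 + K + m) ≤ C * (1 / 4) ^ m :=
        h4.trans (mul_le_mul_of_nonneg_left (h5.trans h6) hC.le)
      have h8 : (1 / 2 : ℝ) ^ (j0 + K + m) * (2 ^ (j0 + K) * 4 ^ m) ≤
          C * (1 / 4) ^ m * (2 ^ (j0 + K) * 4 ^ m) :=
        mul_le_mul_of_nonneg_right h7 (by positivity)
      have e1 : (1 / 2 : ℝ) ^ (j0 + K + m) * (2 ^ (j0 + K) * 4 ^ m) = 2 ^ m := by
        rw [pow_add (1 / 2 : ℝ), show (4 : ℝ) = 2 * 2 by norm_num, mul_pow]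
        have a1 : (1 / 2 : ℝ) ^ (j0 + K) * 2 ^ (j0 + K) = 1 := by
          rw [← mul_pow]; norm_num
        have a2 : (1 / 2 : ℝ) ^ m * 2 ^ m = 1 := by
          rw [← mul_pow]; norm_num
        calc _ = ((1 / 2 : ℝ) ^ (j0 + K) * 2 ^ (j0 + K)) * ((1 / 2 : ℝ) ^ m * 2 ^ m) * 2 ^ m := by ring
          _ = 2 ^ m := by rw [a1, a2]; ring
      have e2 : C * (1 / 4) ^ m * (2 ^ (j0 + K) * 4 ^ m) = C * 2 ^ (j0 + K) := by
        have a1 : (1 / 4 : ℝ) ^ m * 4 ^ m = 1 := by
          rw [← mul_pow]; norm_num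
        calc _ = C * 2 ^ (j0 + K) * ((1 / 4 : ℝ) ^ m * 4 ^ m) := by ring
          _ = _ := by rw [a1, mul_one]
      rwa [e1, e2] at h8
    obtain ⟨m, hm⟩ := pow_unbounded_of_one_lt (C * 2 ^ (j0 + K)) (show (1 : ℝ) < 2 by norm_num)
    have h4 := h3 (m + 1) (by omega)
    have h5 : (2 : ℝ) ^ m ≤ 2 ^ (m + 1) := pow_le_pow_right₀ (by norm_num) (by omega)
    linarith
  -- the first hub
  have hub0 : ∃ w, Hub B 0 w ∧ 1 / 2 ≤ |w| := by
    have h1 := reach_count hB (pos B 0)
    have h3 : Nat.count (fun n => B n = Bk) (pos B 0) = 0 := Nat.count_nth_of_infinite hinf 0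
    rw [h3] at h1
    refine ⟨_, ⟨_, _, _, h1, rfl⟩, ?_⟩
    norm_num [abs_of_pos]
  have hubs : ∀ J, ∃ j, J ≤ j ∧ ∃ w, Hub B j w ∧ 1 / 2 ≤ |w| := by
    intro J
    induction J with
    | zero => exact ⟨0, le_rfl, hub0⟩
    | succ J ih =>
      obtain ⟨j, h1, w, h2, h3⟩ := ih
      obtain ⟨j', h4, w', h5, h6⟩ := hub_next hB hinf hviol h2 h3
      exact ⟨j', by omega, w', h5, h6⟩
  have h1 : ∀ᶠ n in atTop, C * r ^ n < (1 / 2 : ℝ) := hlim.eventually (gt_mem_nhds (by norm_num))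
  obtain ⟨J, hJ⟩ := eventually_atTop.1 h1
  obtain ⟨j, hj, w, h2, h3⟩ := hubs J
  have h4 := bound (pos B j + 1) (by omega) _ (hub_x hinf h2)
  have h5 := hJ (pos B j + 1) (by have := (pos_strictMono hinf).id_le j; simp only [id] at this; omega)
  have h6 : |w| ≤ C * r ^ (pos B j + 1) := by simpa using h4
  linarith

/-- **Path-independent stabilizability does not imply a uniform exponential rate.** There are a set of
two real `5 × 10` matrices and a set of two real `10 × 5` matrices for which the products are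
path-independent stabilizable, but for which no sequence `B` gives a uniform exponential rate. -/
theorem result : ∃ (𝒜 : Finset (Matrix (Fin 5) (Fin 10) ℝ)) (ℬ : Finset (Matrix (Fin 10) (Fin 5) ℝ)),
    𝒜.card ≤ 2 ∧ ℬ.card ≤ 2 ∧ PathIndependentStabilizable 𝒜 ℬ ∧ ¬ UniformExponentialRate 𝒜 ℬ :=
  ⟨AA, BB, Finset.card_le_two, Finset.card_le_two, pathIndep, not_uniform⟩

end Pool.Agent.Results.MP_3f52e1_an.NoUniformRate
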